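import Pool.Agent.FGT.Stmts

/-!
# FGT, row MHD: the theorem of Morse and Hedlund
-/

set_option autoImplicit false

namespace Pool.Agent.FGT.H15

open Pool.Agent.FGT

universe u

variable {A : Type u}

/-- the factor of length `m` at position `i` -/
def fac (x : ℕ → A) (m i : ℕ) : Fin m → A := fun k => x (i + k)

/-- restriction to the first `m` letters -/
def res (m : ℕ) (w : Fin (m + 1) → A) : Fin m → A := fun k => w k.castSucc

theorem res_fac (x : ℕ → A) (m i : ℕ) : res m (fac x (m + 1) i) = fac x m i := by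
  funext k
  simp [res, fac]

theorem image_res (x : ℕ → A) (m : ℕ) :
    res m '' Set.range (fac x (m + 1)) = Set.range (fac x m) := by
  ext w
  constructor
  · rintro ⟨_, ⟨i, rfl⟩, rfl⟩
    exact ⟨i, (res_fac x m i).symm⟩
  · rintro ⟨i, rfl⟩
    exact ⟨_, ⟨i, rfl⟩, res_fac x m i⟩

theorem exists_stable [Finite A] (x : ℕ → A) (n : ℕ) (h : (Set.range (fac x n)).ncard ≤ n) :
    ∃ m, (Set.range (fac x (m + 1))).ncard ≤ (Set.range (fac x m)).ncard := by
  by_contra hcon
  push Not at hcon
  have h1 : ∀ m, m + 1 ≤ (Set.range (fac x m)).ncard := by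
    intro m
    induction m with
    | zero =>
      have : (Set.range (fac x 0)).Nonempty := ⟨_, ⟨0, rfl⟩⟩
      have h2 := (Set.ncard_pos (Set.toFinite _)).2 this
      omega
    | succ m ih =>
      have := hcon m
      omega
  have := h1 n
  omega

theorem mhd : MhdStmt.{u} := by
  intro A _ x n hn
  have hset : {w : Fin n → A | ∃ i : ℕ, ∀ k : Fin n, w k = x (i + k)} =
      Set.range (fac x n) := by
    ext w
    constructor
    · rintro ⟨i, hi⟩
      exact ⟨i, (funext hi).symm⟩
    · rintro ⟨i, rfl⟩
      exact ⟨i, fun _ => rfl⟩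
  rw [hset] at hn
  obtain ⟨m, hm⟩ := exists_stable x n hn
  have hinj : Set.InjOn (res m) (Set.range (fac x (m + 1))) := by
    apply Set.injOn_of_ncard_image_eq _ (Set.toFinite _)
    apply le_antisymm (Set.ncard_image_le (Set.toFinite _))
    rw [image_res]
    exact hm
  have hstep : ∀ i j, fac x m i = fac x m j → x (i + m) = x (j + m) ∧
      fac x m (i + 1) = fac x m (j + 1) := by
    intro i j hij
    have h1 : fac x (m + 1) i = fac x (m + 1) j := by
      apply hinj ⟨i, rfl⟩ ⟨j, rfl⟩
      rw [res_fac, res_fac, hij]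
    have h2 : ∀ k, k < m + 1 → x (i + k) = x (j + k) := fun k hk => congrFun h1 ⟨k, hk⟩
    refine ⟨h2 m (by omega), ?_⟩
    funext k
    have h3 := h2 (k + 1) (by omega)
    show x (i + 1 + k) = x (j + 1 + k)
    have e1 : i + 1 + (k : ℕ) = i + (k + 1) := by omega
    have e2 : j + 1 + (k : ℕ) = j + (k + 1) := by omega
    rw [e1, e2, h3]
  have key : ∀ i j, i < j → fac x m i = fac x m j →
      ∃ i d : ℕ, 0 < d ∧ ∀ l : ℕ, i ≤ l → x (l + d) = x l := by
    intro i j hij h
    have h4 : ∀ l, fac x m (i + l) = fac x m (j + l) := by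
      intro l
      induction l with
      | zero => exact h
      | succ l ih => exact (hstep _ _ ih).2
    refine ⟨i + m, j - i, by omega, ?_⟩
    intro l hl
    have h5 := (hstep _ _ (h4 (l - (i + m)))).1
    have e1 : i + (l - (i + m)) + m = l := by omega
    have e2 : j + (l - (i + m)) + m = l + (j - i) := by omega
    rw [e1, e2] at h5
    exact h5.symm
  obtain ⟨i, j, hne, hij⟩ := Finite.exists_ne_map_eq_of_infinite (fac x m)
  rcases lt_or_gt_of_ne hne with h | h
  · exact key i j h hij
  · exact key j i h hij.symm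

end Pool.Agent.FGT.H15
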